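import Pool.Agent.H82.G4.Targets

/-!
Theorem G (MP_ee74d2_an), group G4: geometry of the significant caps.
-/

set_option autoImplicit false

namespace Pool.Agent.H34.G4.GEO

open MeasureTheory Set
open Pool.Agent.H82.G4 Pool.Agent.H83.G
open Pool.Agent.H22.G4 (nv Ind)
open scoped ENNReal NNReal RealInnerProductSpace

private lemma norm_inv_le {m : ℕ} (x : E m) (r : ℝ) (hr : 0 < r) (hx : r ≤ ‖x‖) :
    ‖(‖x‖ ^ 2)⁻¹ • x‖ ≤ r⁻¹ := by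
  have hx0 : 0 < ‖x‖ := hr.trans_le hx
  rw [norm_smul, norm_inv, norm_pow, norm_norm]
  have : (‖x‖ ^ 2)⁻¹ * ‖x‖ = ‖x‖⁻¹ := by
    field_simp
  rw [this]
  exact inv_anti₀ hr hx

theorem pf_GEO (hGE1 : T_GE1) (hGE2 : T_GE2) (hGE3 : T_GE3) (hPUS : T_PUS) : T_GEO := by
  classical
  intro K₁ hK₁
  obtain ⟨-, -, C₀, hC₀, -, -, hctr⟩ := hPUS 3
  set B : ℝ := max C₀ 1 with hB
  have hB1 : 1 ≤ B := le_max_right _ _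
  have hK0 : 0 < K₁ := by linarith
  obtain ⟨C₁, hC₁, h1⟩ := hGE1 3 B K₁ hB1 hK₁
  set r : ℝ := (2 * K₁)⁻¹ with hr
  have hr0 : 0 < r := by positivity
  have h2r : r + r = K₁⁻¹ := by
    rw [hr]
    field_simp
    norm_num
  have hrK : r ≤ K₁⁻¹ := by linarith
  obtain ⟨C₂, hC₂, h2⟩ := hGE2 3 B r C₁ hB1 hr0 (by linarith)
  set B' : ℝ := max B r⁻¹ with hB'
  have hB'1 : 1 ≤ B' := hB1.trans (le_max_left _ _)
  obtain ⟨C₃, hC₃, h3⟩ := hGE3 3 B' r C₂ (by norm_num) hB'1 hr0 hC₂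
  refine ⟨max 1 ((2 * C₃) ^ 10), le_max_left _ _, ?_⟩
  intro K S hK hS
  have hK1 : 1 ≤ K := (le_max_left _ _).trans hK
  have hKp : 0 < K := by linarith
  have hK2 : (2 * C₃) ^ 10 ≤ K := (le_max_right _ _).trans hK
  by_contra hcon
  push Not at hcon
  obtain ⟨hn1, hn2, hn3⟩ := hcon
  have hKi : 0 < K⁻¹ := by positivity
  have hKi1 : K⁻¹ ≤ 1 := inv_le_one_of_one_le₀ hK1
  have hbd : ∀ k ∈ S, ‖ctr K⁻¹ k‖ ≤ B := fun k hk =>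
    (hctr K⁻¹ k hKi hKi1 (hS hk)).trans (le_max_left _ _)
  obtain ⟨k₁, hk₁, -⟩ := hn1 0 0
  obtain ⟨k₂, hk₂, h12, -⟩ := hn1 (ctr K⁻¹ k₁) (ctr K⁻¹ k₁)
  obtain ⟨k₃, hk₃, h13, h23⟩ := hn1 (ctr K⁻¹ k₁) (ctr K⁻¹ k₂)
  set e₁ := ctr K⁻¹ k₁ with he₁
  set e₂ := ctr K⁻¹ k₂ with he₂
  set e₃ := ctr K⁻¹ k₃ with he₃
  set ρ : ℝ := K ^ (-(19 / 20) : ℝ) with hρ
  have hρ0 : 0 < ρ := Real.rpow_pos_of_pos hKp _
  have hρ1 : ρ ≤ 1 := Real.rpow_le_one_of_one_le_of_nonpos hK1 (by norm_num)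
  have hKρ : K⁻¹ ≤ ρ := by
    rw [hρ, ← Real.rpow_neg_one]
    exact Real.rpow_le_rpow_of_exponent_le hK1 (by norm_num)
  have hlin : ∀ k ∈ S, ∃ a : Fin 3 → ℝ, (∀ i, |a i| ≤ C₁) ∧
      ‖nv (ctr K⁻¹ k) - (a 0 • nv e₁ + a 1 • nv e₂ + a 2 • nv e₃)‖ ≤ C₁ * ρ := by
    intro k hk
    have hnot : ¬ Ind ρ ![e₁, e₂, e₃, ctr K⁻¹ k] := by
      intro hI
      refine hn3 ![k₁, k₂, k₃, k] ?_ ?_
      · intro i
        fin_cases i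
        · exact hk₁
        · exact hk₂
        · exact hk₃
        · exact hk
      · have : (fun i => ctr K⁻¹ ((![k₁, k₂, k₃, k] : Fin 4 → Fin 3 → ℤ) i)) =
            ![e₁, e₂, e₃, ctr K⁻¹ k] := by
          funext i
          fin_cases i <;> rfl
        rw [this]
        exact hI
    refine h1 ρ ![e₁, e₂, e₃, ctr K⁻¹ k] hρ0 ?_ ?_ ?_ ?_ hnot
    · intro i
      fin_cases i
      · exact hbd _ hk₁
      · exact hbd _ hk₂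
      · exact hbd _ hk₃
      · exact hbd _ hk
    · change K₁⁻¹ ≤ ‖e₁ - e₂‖
      rw [norm_sub_rev]
      exact h12.le
    · change K₁⁻¹ ≤ ‖e₁ - e₃‖
      rw [norm_sub_rev]
      exact h13.le
    · change K₁⁻¹ ≤ ‖e₂ - e₃‖
      rw [norm_sub_rev]
      exact h23.le
  have hJ : ∀ (η₀ η₁ η₂ : E 3), ‖η₀‖ ≤ B → ‖η₁‖ ≤ B → ‖η₂‖ ≤ B → r ≤ ‖η₁ - η₀‖ →
      r ≤ ‖η₂ - η₀‖ → (∀ k ∈ S, ∃ a₀ a₁ a₂ : ℝ, |a₀| ≤ C₁ ∧ |a₁| ≤ C₁ ∧ |a₂| ≤ C₁ ∧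
        ‖nv (ctr K⁻¹ k) - (a₀ • nv η₀ + a₁ • nv η₁ + a₂ • nv η₂)‖ ≤ C₁ * ρ) →
      ((S.filter fun k => r ≤ ‖ctr K⁻¹ k - η₀‖).card : ℝ) ≤ C₃ * ρ ^ (2 : ℝ) * K ^ 3 := by
    intro η₀ η₁ η₂ b0 b1 b2 hr1 hr2 hlin'
    have h4 := h3 K ρ η₀ ((‖η₁ - η₀‖ ^ 2)⁻¹ • (η₁ - η₀)) ((‖η₂ - η₀‖ ^ 2)⁻¹ • (η₂ - η₀))
      (S.filter fun k => r ≤ ‖ctr K⁻¹ k - η₀‖) hK1 hKρ hρ1 (b0.trans (le_max_left _ _))
      ((norm_inv_le _ r hr0 hr1).trans (le_max_right _ _))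
      ((norm_inv_le _ r hr0 hr2).trans (le_max_right _ _)) ?_
    · have h5 : (((3 : ℕ) : ℝ) - 1) = 2 := by norm_num
      rw [h5] at h4
      exact h4
    · intro k hk
      rw [Finset.mem_filter] at hk
      obtain ⟨hkS, hkr⟩ := hk
      obtain ⟨a₀, a₁, a₂, ha0, ha1, ha2, hl⟩ := hlin' k hkS
      obtain ⟨t, ht1, ht2⟩ := h2 ρ η₀ η₁ η₂ (ctr K⁻¹ k) a₀ a₁ a₂ hρ0 b0 b1 b2 (hbd k hkS)
        hr1 hr2 hkr ha0 ha1 ha2 hl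
      exact ⟨(hbd k hkS).trans (le_max_left _ _), hkr, t, ht1, ht2⟩
  have hJ1 := hJ e₁ e₂ e₃ (hbd _ hk₁) (hbd _ hk₂) (hbd _ hk₃) (hrK.trans h12.le)
    (hrK.trans h13.le) (by
      intro k hk
      obtain ⟨a, ha, hl⟩ := hlin k hk
      exact ⟨a 0, a 1, a 2, ha 0, ha 1, ha 2, hl⟩)
  have hJ2 := hJ e₂ e₁ e₃ (hbd _ hk₂) (hbd _ hk₁) (hbd _ hk₃)
    (by rw [norm_sub_rev]; exact hrK.trans h12.le) (hrK.trans h23.le) (by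
      intro k hk
      obtain ⟨a, ha, hl⟩ := hlin k hk
      refine ⟨a 1, a 0, a 2, ha 1, ha 0, ha 2, ?_⟩
      rw [add_comm (a 1 • nv e₂)]
      exact hl)
  have hcov : S ⊆ (S.filter fun k => r ≤ ‖ctr K⁻¹ k - e₁‖) ∪
      (S.filter fun k => r ≤ ‖ctr K⁻¹ k - e₂‖) := by
    intro k hk
    rw [Finset.mem_union, Finset.mem_filter, Finset.mem_filter]
    by_contra hc
    push Not at hc
    have ha := hc.1 hk
    have hb := hc.2 hk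
    have h6 : ‖e₂ - e₁‖ ≤ ‖ctr K⁻¹ k - e₁‖ + ‖ctr K⁻¹ k - e₂‖ := by
      have h7 : e₂ - e₁ = (ctr K⁻¹ k - e₁) - (ctr K⁻¹ k - e₂) := by abel
      rw [h7]
      exact norm_sub_le _ _
    linarith
  have hcard : (S.card : ℝ) ≤ 2 * C₃ * (ρ ^ (2 : ℝ) * K ^ 3) := by
    have h8 : (S.card : ℝ) ≤ ((S.filter fun k => r ≤ ‖ctr K⁻¹ k - e₁‖).card : ℝ) +
        ((S.filter fun k => r ≤ ‖ctr K⁻¹ k - e₂‖).card : ℝ) := by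
      exact_mod_cast (Finset.card_le_card hcov).trans (Finset.card_union_le _ _)
    linarith
  have hpow : ρ ^ (2 : ℝ) * K ^ 3 = K ^ (11 / 10 : ℝ) := by
    rw [hρ, ← Real.rpow_mul hKp.le, ← Real.rpow_natCast K 3, ← Real.rpow_add hKp]
    norm_num
  have hlast : 2 * C₃ ≤ K ^ (1 / 10 : ℝ) := by
    have h9 : ((2 * C₃) ^ 10) ^ (1 / 10 : ℝ) = 2 * C₃ := by
      rw [← Real.rpow_natCast, ← Real.rpow_mul (by positivity)]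
      norm_num
    rw [← h9]
    exact Real.rpow_le_rpow (by positivity) hK2 (by norm_num)
  have hfin : (S.card : ℝ) ≤ K ^ (6 / 5 : ℝ) := by
    calc (S.card : ℝ) ≤ 2 * C₃ * K ^ (11 / 10 : ℝ) := by rw [← hpow]; exact hcard
      _ ≤ K ^ (1 / 10 : ℝ) * K ^ (11 / 10 : ℝ) := by
          gcongr
      _ = K ^ (6 / 5 : ℝ) := by
          rw [← Real.rpow_add hKp]
          norm_num
  linarith

end Pool.Agent.H34.G4.GEO
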