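import Pool.Agent.H82.G4.Targets

/-!
Theorem G (MP_ee74d2_an), group G4: cap multipliers and sums over separated sets.
-/

set_option autoImplicit false

namespace Pool.Agent.H34.G4.SXK

open MeasureTheory Set
open Pool.Agent.H82.G4 Pool.Agent.H83.G
open scoped ENNReal NNReal RealInnerProductSpace

/-- Jensen with a weight (adapted from Pool/Agent/H20/PD/Conv.lean) -/
private lemma jensen_wt {α : Type*} [MeasurableSpace α] (μ : Measure α) (k w : α → ENNReal)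
    (hk : Measurable k) (hw : Measurable w) (q : ℝ) (hq : 1 ≤ q) :
    (∫⁻ a, k a * w a ∂μ) ^ q ≤ (∫⁻ a, k a ∂μ) ^ (q - 1) * ∫⁻ a, k a * w a ^ q ∂μ := by
  have hq0 : 0 < q := by linarith
  have h1 : (0 : ℝ) ≤ 1 / q := by positivity
  have h2 : 0 ≤ 1 - 1 / q := by
    rw [sub_nonneg, div_le_one hq0]
    exact hq
  have h := ENNReal.lintegral_mul_norm_pow_le (μ := μ) (f := fun a => k a * w a ^ q) (g := k)
    (hk.mul (hw.pow_const q)).aemeasurable hk.aemeasurable h1 h2 (by ring)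
  have e : ∀ a, (k a * w a ^ q) ^ (1 / q) * k a ^ (1 - 1 / q) = k a * w a := by
    intro a
    rw [ENNReal.mul_rpow_of_nonneg _ _ h1, ← ENNReal.rpow_mul, mul_one_div_cancel hq0.ne',
      ENNReal.rpow_one, mul_right_comm, ← ENNReal.rpow_add_of_nonneg _ _ h1 h2]
    simp
  simp_rw [e] at h
  calc (∫⁻ a, k a * w a ∂μ) ^ q ≤
        ((∫⁻ a, k a * w a ^ q ∂μ) ^ (1 / q) * (∫⁻ a, k a ∂μ) ^ (1 - 1 / q)) ^ q :=
        ENNReal.rpow_le_rpow h hq0.le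
    _ = _ := by
        rw [ENNReal.mul_rpow_of_nonneg _ _ hq0.le, ← ENNReal.rpow_mul, ← ENNReal.rpow_mul,
          one_div_mul_cancel hq0.ne', ENNReal.rpow_one, mul_comm]
        congr 2
        field_simp

variable {m : ℕ}

private lemma TP_const_mul (c : ℂ) (β : E m → ℂ) (η : E m) (s : ℝ) (G : Z m → ℂ) (z : Z m) :
    TP (fun x => c * β x) η s G z = c * TP β η s G z := by
  unfold TP TF cp
  rw [← integral_const_mul]
  refine integral_congr_ae (Filter.Eventually.of_forall fun ζ => ?_)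
  simp only
  ring

private lemma sum_le_SX (P : ℝ) (f : Z m → ℂ) (X : Finset (Z m)) (hX : Sep X) :
    ∑ z ∈ X, ‖f z‖ₑ ^ P ≤ SX P f := by
  unfold SX
  exact le_iSup₂_of_le X hX le_rfl

private lemma sum_translate (P : ℝ) (f : Z m → ℂ) (X : Finset (Z m)) (hX : Sep X) (t : Z m) :
    ∑ z ∈ X, ‖f (z - t)‖ₑ ^ P ≤ SX P f := by
  classical
  have h := sum_le_SX P f (X.image fun z => z - t) (by
    intro a ha b hb hab
    rw [Finset.mem_image] at ha hb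
    obtain ⟨a', ha', rfl⟩ := ha
    obtain ⟨b', hb', rfl⟩ := hb
    have hne : a' ≠ b' := fun h => hab (by rw [h])
    have := hX a' ha' b' hb' hne
    rwa [sub_sub_sub_cancel_right])
  rw [Finset.sum_image (fun a _ b _ hab => by simpa using hab)] at h
  exact h

theorem pf_SXK (hKER : T_KER) (hPUB : T_PUB) (hWT2 : T_WT2) (hSCH : T_SCH) : T_SXK := by
  intro m P β hP hβ
  have hP0 : 0 < P := by linarith
  obtain ⟨C₀, hC₀, hφ⟩ := hPUB m (m + 3) β hβ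
  obtain ⟨C₁, hC₁⟩ := hKER m (m + 3)
  obtain ⟨C₂, -, -, hC₂⟩ := hWT2 m (m + 3) le_rfl
  refine ⟨((Real.toNNReal C₀) * C₁) ^ P * C₂ ^ P, ?_⟩
  intro η s G hs hG hsupp
  obtain ⟨hcont, -⟩ := hSCH m G hG
  set w : ℝ × E m → ℝ≥0∞ := fun u => ENNReal.ofReal (((1 + ‖u‖) ^ (m + 3))⁻¹) with hw
  set t : ℝ × E m → Z m := fun u => (u.1 - s⁻¹ * ⟪u.2, η⟫, s⁻¹ • u.2, 0) with ht
  have htc : Continuous t := by
    rw [ht]
    fun_prop
  have hwm : Measurable w := by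
    rw [hw]
    fun_prop
  have hFm : ∀ z : Z m, Measurable (fun u : ℝ × E m => ‖TF G (z - t u)‖ₑ) := by
    intro z
    exact (hcont.comp (continuous_const.sub htc)).enorm.measurable
  have hpt : ∀ z : Z m, ‖TP β η s G z‖ₑ ^ P ≤
      (((Real.toNNReal C₀) * C₁ : ℝ≥0) : ℝ≥0∞) ^ P * ((C₂ : ℝ≥0∞) ^ (P - 1) *
        ∫⁻ u, w u * ‖TF G (z - t u)‖ₑ ^ P) := by
    intro z
    have h1 := hC₁ _ hφ η s G hs hG hsupp z
    have hC0 : ((C₀ : ℝ) : ℂ) ≠ 0 := by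
      have : C₀ ≠ 0 := by linarith
      exact_mod_cast this
    have h2 : TP β η s G z = ((C₀ : ℝ) : ℂ) * TP (fun x => ((C₀⁻¹ : ℝ) : ℂ) * β x) η s G z := by
      rw [TP_const_mul]
      push_cast
      rw [← mul_assoc, mul_inv_cancel₀ hC0, one_mul]
    have h3 : ‖((C₀ : ℝ) : ℂ)‖ₑ = ((Real.toNNReal C₀ : ℝ≥0) : ℝ≥0∞) := by
      rw [enorm_eq_nnnorm]
      congr 1
      ext
      rw [coe_nnnorm, Complex.norm_real, Real.norm_of_nonneg (by linarith),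
        Real.coe_toNNReal _ (by linarith)]
    have h4 : ‖TP β η s G z‖ₑ ≤ (((Real.toNNReal C₀) * C₁ : ℝ≥0) : ℝ≥0∞) *
        ∫⁻ u, w u * ‖TF G (z - t u)‖ₑ := by
      rw [h2, enorm_mul, h3, ENNReal.coe_mul, mul_assoc]
      gcongr
    calc ‖TP β η s G z‖ₑ ^ P ≤ ((((Real.toNNReal C₀) * C₁ : ℝ≥0) : ℝ≥0∞) *
        ∫⁻ u, w u * ‖TF G (z - t u)‖ₑ) ^ P := ENNReal.rpow_le_rpow h4 hP0.le
      _ = (((Real.toNNReal C₀) * C₁ : ℝ≥0) : ℝ≥0∞) ^ P *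
          (∫⁻ u, w u * ‖TF G (z - t u)‖ₑ) ^ P := ENNReal.mul_rpow_of_nonneg _ _ hP0.le
      _ ≤ (((Real.toNNReal C₀) * C₁ : ℝ≥0) : ℝ≥0∞) ^ P * ((∫⁻ u, w u) ^ (P - 1) *
          ∫⁻ u, w u * ‖TF G (z - t u)‖ₑ ^ P) := by
          gcongr
          exact jensen_wt volume w _ hwm (hFm z) P hP
      _ ≤ _ := by
          gcongr
  unfold SX
  refine iSup₂_le fun X hX => ?_
  change _ ≤ _ * SX P (TF G)
  calc ∑ z ∈ X, ‖TP β η s G z‖ₑ ^ P
      ≤ ∑ z ∈ X, (((Real.toNNReal C₀) * C₁ : ℝ≥0) : ℝ≥0∞) ^ P * ((C₂ : ℝ≥0∞) ^ (P - 1) *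
        ∫⁻ u, w u * ‖TF G (z - t u)‖ₑ ^ P) := Finset.sum_le_sum fun z _ => hpt z
    _ = (((Real.toNNReal C₀) * C₁ : ℝ≥0) : ℝ≥0∞) ^ P * ((C₂ : ℝ≥0∞) ^ (P - 1) *
        ∫⁻ u, w u * ∑ z ∈ X, ‖TF G (z - t u)‖ₑ ^ P) := by
        rw [← Finset.mul_sum, ← Finset.mul_sum, ← lintegral_finsetSum]
        · simp_rw [Finset.mul_sum]
        · intro z _
          exact hwm.mul ((hFm z).pow_const P)
    _ ≤ (((Real.toNNReal C₀) * C₁ : ℝ≥0) : ℝ≥0∞) ^ P * ((C₂ : ℝ≥0∞) ^ (P - 1) *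
        ∫⁻ u, w u * SX P (TF G)) := by
        gcongr with u
        exact sum_translate P (TF G) X hX (t u)
    _ = (((Real.toNNReal C₀) * C₁ : ℝ≥0) : ℝ≥0∞) ^ P * ((C₂ : ℝ≥0∞) ^ (P - 1) *
        ((∫⁻ u, w u) * SX P (TF G))) := by
        rw [lintegral_mul_const _ hwm]
    _ ≤ (((Real.toNNReal C₀) * C₁ : ℝ≥0) : ℝ≥0∞) ^ P * ((C₂ : ℝ≥0∞) ^ (P - 1) *
        (C₂ * SX P (TF G))) := by
        gcongr
    _ = _ := by
        have h5 : (C₂ : ℝ≥0∞) ^ (P - 1) * C₂ = (C₂ : ℝ≥0∞) ^ P := by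
          conv_rhs => rw [show P = (P - 1) + 1 by ring]
          rw [ENNReal.rpow_add_of_nonneg _ _ (by linarith) zero_le_one, ENNReal.rpow_one]
        rw [← mul_assoc ((C₂ : ℝ≥0∞) ^ (P - 1)), h5, ← mul_assoc,
          ENNReal.coe_mul (((Real.toNNReal C₀) * C₁) ^ P) (C₂ ^ P),
          ENNReal.coe_rpow_of_nonneg _ hP0.le, ENNReal.coe_rpow_of_nonneg _ hP0.le]

end Pool.Agent.H34.G4.SXK
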